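import Mathlib

/-!
# The edge-isoperimetric stability bound `|S Δ C| ≤ c' √(d ε) |S|` in `ℤ^d` fails

For every constant `c'` a cuboid, half of whose sides have length `m + 1` and half of whose sides
have length `m`, violates the bound.
-/

namespace Pool.Agent.Results.MP_5333ad_co.HalfHalfCuboid

/-- The graph on `ℤ^d` in which `x`, `y` are adjacent when `‖x - y‖₁ = 1`. -/
def lattice (d : ℕ) : SimpleGraph (Fin d → ℤ) where
  Adj x y := ∑ i, |x i - y i| = 1
  symm := ⟨fun x y h => by
    rw [← h]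
    exact Finset.sum_congr rfl fun i _ => abs_sub_comm _ _⟩
  loopless := ⟨fun x h => by simp at h⟩

/-- The edge boundary of `S`: the edges of the lattice graph with exactly one endpoint in `S`. -/
def edgeBoundary {d : ℕ} (S : Finset (Fin d → ℤ)) : Set (Sym2 (Fin d → ℤ)) :=
  {e | e ∈ (lattice d).edgeSet ∧ ∃! x, x ∈ e ∧ x ∈ S}

/-- `C` is a cube `a + {0, …, k - 1}^d` with `k ≥ 1`. -/
def IsCube {d : ℕ} (C : Finset (Fin d → ℤ)) : Prop :=
  ∃ (a : Fin d → ℤ) (k : ℕ), 1 ≤ k ∧ ∀ x, x ∈ C ↔ ∀ i, a i ≤ x i ∧ x i < a i + k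

/-- The box with sides `s i`. -/
noncomputable def box {d : ℕ} (s : Fin d → ℕ) : Finset (Fin d → ℤ) :=
  Fintype.piFinset fun i => Finset.Ico (0 : ℤ) (s i)

theorem card_box {d : ℕ} (s : Fin d → ℕ) : (box s).card = ∏ i, s i := by
  simp [box, Fintype.card_piFinset]

theorem mem_box {d : ℕ} {s : Fin d → ℕ} {x : Fin d → ℤ} :
    x ∈ box s ↔ ∀ i, 0 ≤ x i ∧ x i < s i := by
  simp [box, Fintype.mem_piFinset]

/-- A facet of the box. -/
noncomputable def facet {d : ℕ} (s : Fin d → ℕ) (i : Fin d) (t : ℤ) : Finset (Fin d → ℤ) :=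
  Fintype.piFinset fun j => if j = i then {t} else Finset.Ico (0 : ℤ) (s j)

theorem card_facet {d : ℕ} (s : Fin d → ℕ) (i : Fin d) (t : ℤ) :
    (facet s i t).card * s i = ∏ j, s j := by
  have h1 : (facet s i t).card = ∏ j, (if j = i then 1 else s j) := by
    rw [facet, Fintype.card_piFinset]
    refine Finset.prod_congr rfl fun j _ => ?_
    split_ifs <;> simp
  rw [h1, ← Finset.mul_prod_erase Finset.univ s (Finset.mem_univ i),
    ← Finset.mul_prod_erase Finset.univ (fun j => if j = i then 1 else s j) (Finset.mem_univ i)]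
  simp only [if_true, one_mul]
  rw [mul_comm]
  congr 1
  refine Finset.prod_congr rfl fun j hj => ?_
  rw [if_neg (Finset.ne_of_mem_erase hj)]

/-- The edges leaving the box through the two facets in direction `i`. -/
noncomputable def edgesAt {d : ℕ} (s : Fin d → ℕ) (i : Fin d) : Finset (Sym2 (Fin d → ℤ)) := by
  classical
  exact (facet s i 0).image (fun x => s(x, Function.update x i (x i - 1))) ∪
    (facet s i ((s i : ℤ) - 1)).image (fun x => s(x, Function.update x i (x i + 1)))

theorem card_edgesAt {d : ℕ} (s : Fin d → ℕ) (i : Fin d) :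
    (edgesAt s i).card * s i ≤ 2 * ∏ j, s j := by
  classical
  have h1 : (edgesAt s i).card ≤ (facet s i 0).card + (facet s i ((s i : ℤ) - 1)).card := by
    unfold edgesAt
    refine (Finset.card_union_le _ _).trans ?_
    exact add_le_add Finset.card_image_le Finset.card_image_le
  calc (edgesAt s i).card * s i
      ≤ ((facet s i 0).card + (facet s i ((s i : ℤ) - 1)).card) * s i :=
        Nat.mul_le_mul_right _ h1
    _ = 2 * ∏ j, s j := by
        rw [add_mul, card_facet, card_facet]
        ring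

theorem adj_cases {d : ℕ} {x y : Fin d → ℤ} (h : (lattice d).Adj x y) :
    ∃ i, (∀ j, j ≠ i → y j = x j) ∧ (y i = x i + 1 ∨ y i = x i - 1) := by
  have h' : ∑ i, |x i - y i| = 1 := h
  obtain ⟨i, hi⟩ : ∃ i, x i - y i ≠ 0 := by
    by_contra hc
    push Not at hc
    simp [hc] at h'
  have hpos : 1 ≤ |x i - y i| := Int.one_le_abs hi
  rw [← Finset.add_sum_erase Finset.univ _ (Finset.mem_univ i)] at h'
  have hnn : 0 ≤ ∑ j ∈ Finset.univ.erase i, |x j - y j| :=
    Finset.sum_nonneg fun j _ => abs_nonneg _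
  have hz : ∑ j ∈ Finset.univ.erase i, |x j - y j| = 0 := by omega
  have h1 : |x i - y i| = 1 := by omega
  refine ⟨i, fun j hj => ?_, ?_⟩
  · have := (Finset.sum_eq_zero_iff_of_nonneg (fun j _ => abs_nonneg _)).1 hz j
      (Finset.mem_erase.2 ⟨hj, Finset.mem_univ j⟩)
    have := abs_eq_zero.1 this
    omega
  · rcases abs_eq (by norm_num : (0 : ℤ) ≤ 1) |>.1 h1 with h | h
    · right; omega
    · left; omega

theorem boundary_subset {d : ℕ} (s : Fin d → ℕ) :
    edgeBoundary (box s) ⊆ ((Finset.univ : Finset (Fin d)).biUnion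
      (by classical exact edgesAt s) : Set (Sym2 (Fin d → ℤ))) := by
  classical
  rintro e ⟨he, x, ⟨hxe, hxS⟩, huniq⟩
  obtain ⟨y, rfl⟩ := hxe
  have hadj : (lattice d).Adj x y := by simpa using he
  have hne : y ≠ x := hadj.ne'
  have hyS : y ∉ box s := fun hy => hne (huniq y ⟨Sym2.mem_mk_right x y, hy⟩)
  obtain ⟨i, hj, hi⟩ := adj_cases hadj
  rw [mem_box] at hxS
  have hyi : ¬ (0 ≤ y i ∧ y i < s i) := by
    intro hyi
    apply hyS
    rw [mem_box]
    intro j
    by_cases hji : j = i
    · rw [hji]; exact hyi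
    · rw [hj j hji]; exact hxS j
  have hyu : y = Function.update x i (y i) := by
    funext j
    by_cases hji : j = i
    · subst hji; simp
    · rw [Function.update_of_ne hji, hj j hji]
  have hxi := hxS i
  simp only [Finset.coe_biUnion, Set.mem_iUnion]
  refine ⟨i, Finset.mem_univ i, ?_⟩
  simp only [edgesAt, Finset.coe_union, Finset.coe_image, Set.mem_union, Set.mem_image,
    Finset.mem_coe]
  rcases hi with hi | hi
  · right
    have hx1 : x i = (s i : ℤ) - 1 := by
      by_contra hc
      exact hyi ⟨by omega, by omega⟩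
    refine ⟨x, ?_, ?_⟩
    · rw [facet, Fintype.mem_piFinset]
      intro j
      by_cases hji : j = i
      · subst hji; simp [hx1]
      · rw [if_neg hji, Finset.mem_Ico]; exact hxS j
    · rw [← hi, ← hyu]
  · left
    have hx1 : x i = 0 := by
      by_contra hc
      exact hyi ⟨by omega, by omega⟩
    refine ⟨x, ?_, ?_⟩
    · rw [facet, Fintype.mem_piFinset]
      intro j
      by_cases hji : j = i
      · subst hji; simp [hx1]
      · rw [if_neg hji, Finset.mem_Ico]; exact hxS j
    · rw [← hi, ← hyu]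

theorem boundary_le {d : ℕ} (s : Fin d → ℕ) (hs : ∀ i, 0 < s i) :
    ((edgeBoundary (box s)).ncard : ℝ) ≤ 2 * (∏ j, (s j : ℝ)) * ∑ i, 1 / (s i : ℝ) := by
  classical
  have h1 : (edgeBoundary (box s)).ncard ≤ ∑ i, (edgesAt s i).card := by
    have h2 := Set.ncard_le_ncard (boundary_subset s) (Finset.finite_toSet _)
    rw [Set.ncard_coe_finset] at h2
    exact h2.trans Finset.card_biUnion_le
  have h3 : ∀ i, ((edgesAt s i).card : ℝ) ≤ 2 * (∏ j, (s j : ℝ)) * (1 / (s i : ℝ)) := by
    intro i
    have h4 := card_edgesAt s i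
    have h5 : ((edgesAt s i).card : ℝ) * s i ≤ 2 * ∏ j, (s j : ℝ) := by exact_mod_cast h4
    have h6 : (0 : ℝ) < s i := by exact_mod_cast hs i
    rw [mul_one_div, le_div_iff₀ h6]
    exact h5
  calc ((edgeBoundary (box s)).ncard : ℝ) ≤ ∑ i, ((edgesAt s i).card : ℝ) := by exact_mod_cast h1
    _ ≤ ∑ i, 2 * (∏ j, (s j : ℝ)) * (1 / (s i : ℝ)) := Finset.sum_le_sum fun i _ => h3 i
    _ = 2 * (∏ j, (s j : ℝ)) * ∑ i, 1 / (s i : ℝ) := by rw [Finset.mul_sum]

theorem card_cube {d : ℕ} {C : Finset (Fin d → ℤ)} (hC : IsCube C) :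
    ∃ k : ℕ, 1 ≤ k ∧ C.card = k ^ d := by
  classical
  obtain ⟨a, k, hk, h⟩ := hC
  refine ⟨k, hk, ?_⟩
  have : C = Fintype.piFinset fun i => Finset.Ico (a i) (a i + k) := by
    ext x
    rw [h, Fintype.mem_piFinset]
    simp
  rw [this, Fintype.card_piFinset]
  simp

/-- The side lengths: the first `n` sides are `n + 1`, the other `n` sides are `n`. -/
def side (n : ℕ) (i : Fin (2 * n)) : ℕ := if (i : ℕ) < n then n + 1 else n

theorem prod_side (n : ℕ) {M : Type*} [CommMonoid M] (f : ℕ → M) :
    ∏ i : Fin (2 * n), f (side n i) = f (n + 1) ^ n * f n ^ n := by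
  have h1 : ∏ i : Fin (2 * n), f (side n i) =
      ∏ i ∈ Finset.range (2 * n), f (if i < n then n + 1 else n) :=
    (Finset.prod_range fun i => f (if i < n then n + 1 else n)).symm
  rw [h1, two_mul, Finset.prod_range_add]
  congr 1
  · rw [Finset.prod_congr rfl (g := fun _ => f (n + 1))]
    · simp
    · intro i hi
      rw [if_pos (Finset.mem_range.1 hi)]
  · rw [Finset.prod_congr rfl (g := fun _ => f n)]
    · simp
    · intro i _
      rw [if_neg (by omega)]

theorem sum_side (n : ℕ) (f : ℕ → ℝ) :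
    ∑ i : Fin (2 * n), f (side n i) = n * f (n + 1) + n * f n := by
  have h1 : ∑ i : Fin (2 * n), f (side n i) =
      ∑ i ∈ Finset.range (2 * n), f (if i < n then n + 1 else n) :=
    (Finset.sum_range fun i => f (if i < n then n + 1 else n)).symm
  rw [h1, two_mul, Finset.sum_range_add]
  congr 1
  · rw [Finset.sum_congr rfl (g := fun _ => f (n + 1))]
    · simp
    · intro i hi
      rw [if_pos (Finset.mem_range.1 hi)]
  · rw [Finset.sum_congr rfl (g := fun _ => f n)]
    · simp
    · intro i _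
      rw [if_neg (by omega)]

/-- For every `c' > 0` there are `d ≥ 1`, `ε > 0` and a finite `S ⊂ ℤ^d` with
`|∂S| ≤ 2 d |S|^((d-1)/d) (1 + ε)` such that `|S Δ C| > c' √(d ε) |S|` for every cube `C`. -/
theorem result : ∀ c' : ℝ, 0 < c' → ∃ d : ℕ, 1 ≤ d ∧ ∃ ε : ℝ, 0 < ε ∧
    ∃ S : Finset (Fin d → ℤ),
      ((edgeBoundary S).ncard : ℝ) ≤
        2 * d * (S.card : ℝ) ^ (((d : ℝ) - 1) / d) * (1 + ε) ∧
      ∀ C : Finset (Fin d → ℤ), IsCube C →
        c' * Real.sqrt (d * ε) * S.card < ((symmDiff S C).card : ℝ) := by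
  intro c' hc'
  obtain ⟨n, hn⟩ := exists_nat_gt (c' ^ 2)
  have hn0 : 0 < n := by
    rcases Nat.eq_zero_or_pos n with h | h
    · subst h
      have : 0 < c' ^ 2 := by positivity
      simp at hn
      linarith
    · exact h
  have hnR : (0 : ℝ) < n := by exact_mod_cast hn0
  set N : ℝ := (n : ℝ) * (n + 1) with hN
  have hNpos : 0 < N := by positivity
  have hcard : (box (side n)).card = (n + 1) ^ n * n ^ n := by
    rw [card_box]
    exact prod_side n (fun x => x)
  have hcardR : ((box (side n)).card : ℝ) = N ^ n := by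
    rw [hcard, hN]
    push_cast
    rw [mul_pow]
    ring
  refine ⟨2 * n, by omega, 1 / (8 * N), by positivity, box (side n), ?_, ?_⟩
  · have hspos : ∀ i, 0 < side n i := by
      intro i
      unfold side
      split_ifs <;> omega
    refine (boundary_le (side n) hspos).trans ?_
    have hp : (∏ j, ((side n j : ℕ) : ℝ)) = N ^ n := by
      rw [← hcardR, card_box]
      push_cast
      rfl
    have hs : ∑ i, 1 / ((side n i : ℕ) : ℝ) = n * (1 / (n + 1)) + n * (1 / n) := by
      have := sum_side n (fun x => 1 / (x : ℝ))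
      rw [this]
      push_cast
      ring
    rw [hp, hs, hcardR]
    have hpow : (N ^ n : ℝ) ^ ((((2 * n : ℕ) : ℝ) - 1) / ((2 * n : ℕ) : ℝ)) =
        N ^ n / Real.sqrt N := by
      rw [← Real.rpow_natCast N n, ← Real.rpow_mul hNpos.le, Real.sqrt_eq_rpow,
        ← Real.rpow_sub hNpos]
      congr 1
      push_cast
      field_simp
    rw [hpow]
    have hsq : Real.sqrt N * Real.sqrt N = N := Real.mul_self_sqrt hNpos.le
    have hsqpos : 0 < Real.sqrt N := Real.sqrt_pos.2 hNpos
    have hkey : (2 * (n : ℝ) + 1) ≤ 2 * Real.sqrt N * (1 + 1 / (8 * N)) := by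
      refine abs_le_of_sq_le_sq' ?_ (by positivity) |>.2
      have h1 : (2 * Real.sqrt N * (1 + 1 / (8 * N))) ^ 2 = 4 * N * (1 + 1 / (8 * N)) ^ 2 := by
        rw [mul_pow, mul_pow, Real.sq_sqrt hNpos.le]
        ring
      rw [h1]
      have h2 : 4 * N * (1 + 1 / (8 * N)) ^ 2 = 4 * N + 1 + 1 / (16 * N) := by
        field_simp
        ring
      rw [h2]
      have h3 : 0 ≤ 1 / (16 * N) := by positivity
      have h4 : (2 * (n : ℝ) + 1) ^ 2 = 4 * N + 1 := by rw [hN]; ring
      linarith
    have h5 : (n : ℝ) * (1 / (n + 1)) + n * (1 / n) = n * (2 * n + 1) / N := by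
      rw [hN]
      field_simp
      ring
    rw [h5]
    push_cast
    have h6 : 2 * N ^ n * (n * (2 * (n : ℝ) + 1) / N) =
        (2 * N ^ n * n / N) * (2 * (n : ℝ) + 1) := by ring
    have h7 : 2 * (2 * (n : ℝ)) * (N ^ n / Real.sqrt N) * (1 + 1 / (8 * N)) =
        (2 * N ^ n * n / N) * (2 * Real.sqrt N * (1 + 1 / (8 * N))) := by
      have h8 : N ^ n / Real.sqrt N = N ^ n / N * Real.sqrt N := by
        rw [div_eq_iff hsqpos.ne', mul_assoc, hsq]
        field_simp
      rw [h8]
      ring
    rw [h6, h7]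
    exact mul_le_mul_of_nonneg_left hkey (by positivity)
  · intro C hC
    classical
    obtain ⟨k, hk, hCcard⟩ := card_cube hC
    have hNn : (0 : ℝ) < N ^ n := by positivity
    have hbern : (2 : ℝ) * (n : ℝ) ^ n ≤ ((n : ℝ) + 1) ^ n := by
      have h1 := one_add_mul_le_pow (a := 1 / (n : ℝ)) (by
        have : (0 : ℝ) ≤ 1 / n := by positivity
        linarith) n
      have h2 : (1 : ℝ) + n * (1 / n) = 2 := by
        field_simp
        norm_num
      rw [h2] at h1
      have h3 : ((n : ℝ) + 1) ^ n = (1 + 1 / (n : ℝ)) ^ n * (n : ℝ) ^ n := by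
        rw [← mul_pow]
        congr 1
        field_simp
      rw [h3]
      exact mul_le_mul_of_nonneg_right h1 (by positivity)
    have hNeq : N ^ n = (n : ℝ) ^ n * ((n : ℝ) + 1) ^ n := by rw [hN, mul_pow]
    have hlow : (N ^ n) / 2 ≤ ((symmDiff (box (side n)) C).card : ℝ) := by
      rcases Nat.lt_or_ge n k with hnk | hkn
      · have h1 : C.card ≤ (box (side n)).card + (symmDiff (box (side n)) C).card := by
          have hsub : C ⊆ box (side n) ∪ symmDiff (box (side n)) C := by
            intro x hx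
            by_cases hxb : x ∈ box (side n)
            · exact Finset.mem_union_left _ hxb
            · exact Finset.mem_union_right _ (Finset.mem_symmDiff.2 (Or.inr ⟨hx, hxb⟩))
          exact (Finset.card_le_card hsub).trans (Finset.card_union_le _ _)
        have h2 : (C.card : ℝ) ≤ N ^ n + ((symmDiff (box (side n)) C).card : ℝ) := by
          rw [← hcardR]
          exact_mod_cast h1
        have h3 : ((n : ℝ) + 1) ^ (2 * n) ≤ (C.card : ℝ) := by
          rw [hCcard]
          push_cast
          have : (n : ℝ) + 1 ≤ k := by exact_mod_cast hnk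
          gcongr
        have h4 : 2 * N ^ n ≤ ((n : ℝ) + 1) ^ (2 * n) := by
          rw [hNeq, two_mul n, pow_add, ← mul_assoc]
          exact mul_le_mul_of_nonneg_right hbern (by positivity)
        linarith
      · have h1 : (box (side n)).card ≤ C.card + (symmDiff (box (side n)) C).card := by
          have hsub : box (side n) ⊆ C ∪ symmDiff (box (side n)) C := by
            intro x hx
            by_cases hxb : x ∈ C
            · exact Finset.mem_union_left _ hxb
            · exact Finset.mem_union_right _ (Finset.mem_symmDiff.2 (Or.inl ⟨hx, hxb⟩))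
          exact (Finset.card_le_card hsub).trans (Finset.card_union_le _ _)
        have h2 : N ^ n ≤ (C.card : ℝ) + ((symmDiff (box (side n)) C).card : ℝ) := by
          rw [← hcardR]
          exact_mod_cast h1
        have h3 : (C.card : ℝ) ≤ (n : ℝ) ^ (2 * n) := by
          rw [hCcard]
          push_cast
          have : (k : ℝ) ≤ n := by exact_mod_cast hkn
          gcongr
        have h4 : 2 * (n : ℝ) ^ (2 * n) ≤ N ^ n := by
          rw [hNeq, two_mul n, pow_add]
          calc 2 * ((n : ℝ) ^ n * (n : ℝ) ^ n) = (n : ℝ) ^ n * (2 * (n : ℝ) ^ n) := by ring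
            _ ≤ (n : ℝ) ^ n * ((n : ℝ) + 1) ^ n :=
              mul_le_mul_of_nonneg_left hbern (by positivity)
        linarith
    refine lt_of_lt_of_le ?_ hlow
    rw [hcardR]
    have hsmall : c' * Real.sqrt (((2 * n : ℕ) : ℝ) * (1 / (8 * N))) < 1 / 2 := by
      have h1 : ((2 * n : ℕ) : ℝ) * (1 / (8 * N)) = 1 / (4 * ((n : ℝ) + 1)) := by
        rw [hN]
        push_cast
        field_simp
        ring
      rw [h1]
      have h2 : c' * Real.sqrt (1 / (4 * ((n : ℝ) + 1))) =
          Real.sqrt (c' ^ 2 * (1 / (4 * ((n : ℝ) + 1)))) := by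
        rw [Real.sqrt_mul (by positivity), Real.sqrt_sq hc'.le]
      rw [h2, Real.sqrt_lt' (by norm_num)]
      rw [mul_one_div, div_lt_iff₀ (by positivity)]
      nlinarith
    calc c' * Real.sqrt (((2 * n : ℕ) : ℝ) * (1 / (8 * N))) * N ^ n
        < 1 / 2 * N ^ n := mul_lt_mul_of_pos_right hsmall hNn
      _ = N ^ n / 2 := by ring

end Pool.Agent.Results.MP_5333ad_co.HalfHalfCuboid
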